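import Pool.Agent.W935.SK.Stm

/-! Project SK, part SK-SOUND: a certificate excludes all other zeros. -/

set_option autoImplicit false

namespace Pool.Agent.W403.SK

open Polynomial Finset Pool.Agent.H884R2.Sko Pool.Agent.W935.SK

/-- the shift -/
def sh : Module.End ℤ (ℕ → ℤ) where
  toFun w := fun n => w (n + 1)
  map_add' _ _ := rfl
  map_smul' _ _ := rfl

theorem sh_pow (k : ℕ) (w : ℕ → ℤ) (n : ℕ) : (sh ^ k) w n = w (n + k) := by
  induction k generalizing w n with
  | zero => simp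
  | succ k ih =>
    rw [pow_succ, Module.End.mul_apply, ih]
    show w (n + k + 1) = _
    rw [add_assoc]

theorem aeval_chi {d : ℕ} (c e : Fin d → ℤ) : aeval sh (chi c) (seq c e) = 0 := by
  funext n
  unfold chi
  rw [map_sub, map_pow, aeval_X, map_sum, LinearMap.sub_apply, Pi.sub_apply, sh_pow, seq_sol,
    LinearMap.sum_apply, Finset.sum_apply, Pi.zero_apply, sub_eq_zero]
  refine Finset.sum_congr rfl fun i _ => ?_
  rw [map_mul, aeval_C, map_pow, aeval_X, Module.End.mul_apply, Module.algebraMap_end_apply,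
    Pi.smul_apply, sh_pow, smul_eq_mul]

/-- the functional `X ^ n ↦ w n` -/
noncomputable def phi (w : ℕ → ℤ) (f : ℤ[X]) : ℤ := (aeval sh f w) 0

theorem phi_add (w : ℕ → ℤ) (f g : ℤ[X]) : phi w (f + g) = phi w f + phi w g := by
  unfold phi
  rw [map_add, LinearMap.add_apply, Pi.add_apply]

theorem phi_C_mul (w : ℕ → ℤ) (a : ℤ) (f : ℤ[X]) : phi w (C a * f) = a * phi w f := by
  unfold phi
  rw [map_mul, aeval_C, Module.End.mul_apply, Module.algebraMap_end_apply, Pi.smul_apply,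
    smul_eq_mul]

theorem phi_X_pow (w : ℕ → ℤ) (n : ℕ) : phi w (X ^ n) = w n := by
  unfold phi
  rw [map_pow, aeval_X, sh_pow, zero_add]

theorem phi_C (w : ℕ → ℤ) (a : ℤ) : phi w (C a) = a * w 0 := by
  have := phi_C_mul w a 1
  rw [mul_one] at this
  rw [this, ← pow_zero X, phi_X_pow]

theorem phi_chi {d : ℕ} (c e : Fin d → ℤ) {f : ℤ[X]} (hf : chi c ∣ f) :
    phi (seq c e) f = 0 := by
  obtain ⟨g, rfl⟩ := hf
  unfold phi
  rw [mul_comm, map_mul, Module.End.mul_apply, aeval_chi, map_zero, Pi.zero_apply]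

theorem phi_congr {d : ℕ} (c e : Fin d → ℤ) {f g : ℤ[X]} (h : chi c ∣ f - g) :
    phi (seq c e) f = phi (seq c e) g := by
  have h1 : f = g + (f - g) := by ring
  rw [h1, phi_add, phi_chi c e h, add_zero]

theorem phi_low {d : ℕ} (c : Fin d → ℤ) (j : Fin d) {r : ℤ[X]}
    (hr : r.natDegree < d) : phi (seq c (Pi.single j 1)) r = r.coeff j := by
  unfold phi
  rw [aeval_eq_sum_range' hr, LinearMap.sum_apply, Finset.sum_apply, Finset.sum_range,
    Finset.sum_eq_single j]
  · rw [LinearMap.smul_apply, Pi.smul_apply, sh_pow, zero_add, seq_init, Pi.single_eq_same,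
      smul_eq_mul, mul_one]
  · intro i _ hij
    rw [LinearMap.smul_apply, Pi.smul_apply, sh_pow, zero_add, seq_init,
      Pi.single_eq_of_ne hij, smul_zero]
  · intro h
    exact absurd (mem_univ _) h

theorem exists_B {d : ℕ} (hd : 1 ≤ d) (c : Fin d → ℤ) {q b v : ℕ} {lam : ℤ}
    (per : ∀ e : Fin d → ℤ, (q : ℤ) ^ v ∣ seq c e b - lam * seq c e 0) :
    ∃ B : ℤ[X], chi c ∣ X ^ b - (C lam + C ((q : ℤ) ^ v) * B) := by
  have hne : chi c ≠ 1 := by
    intro h
    have h1 := chi_natDegree c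
    rw [h, natDegree_one] at h1
    omega
  have hdeg : (X ^ b %ₘ chi c).natDegree < d := by
    have := natDegree_modByMonic_lt (X ^ b : ℤ[X]) (chi_monic c) hne
    rwa [chi_natDegree] at this
  have hdvd : chi c ∣ X ^ b - X ^ b %ₘ chi c := by
    refine ⟨X ^ b /ₘ chi c, ?_⟩
    have := modByMonic_add_div (X ^ b : ℤ[X]) (chi c)
    linear_combination -this
  have hc : C ((q : ℤ) ^ v) ∣ X ^ b %ₘ chi c - C lam := by
    rw [C_dvd_iff_dvd_coeff]
    intro j
    rw [coeff_sub]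
    by_cases hj : j < d
    · have h1 := per (Pi.single ⟨j, hj⟩ 1)
      rw [← phi_X_pow (seq c (Pi.single ⟨j, hj⟩ 1)) b, phi_congr c _ hdvd,
        phi_low c ⟨j, hj⟩ hdeg] at h1
      have h2 : seq c (Pi.single ⟨j, hj⟩ 1) 0 = if j = 0 then 1 else 0 := by
        have h3 := seq_init c (Pi.single ⟨j, hj⟩ 1) ⟨0, hd⟩
        have h4 : seq c (Pi.single ⟨j, hj⟩ 1) 0 = (Pi.single ⟨j, hj⟩ 1 : Fin d → ℤ) ⟨0, hd⟩ := h3
        rw [h4]
        by_cases hj0 : j = 0
        · subst hj0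
          rw [Pi.single_eq_same, if_pos rfl]
        · rw [if_neg hj0, Pi.single_eq_of_ne]
          intro h
          exact hj0 (congrArg Fin.val h).symm
      rw [h2] at h1
      rw [coeff_C]
      by_cases hj0 : j = 0
      · rw [if_pos hj0, mul_one] at h1
        rw [if_pos hj0]
        exact h1
      · rw [if_neg hj0, mul_zero] at h1
        rw [if_neg hj0]
        exact h1
    · rw [coeff_eq_zero_of_natDegree_lt (by omega), coeff_C, if_neg (by omega), sub_zero]
      exact dvd_zero _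
  obtain ⟨B, hB⟩ := hc
  refine ⟨B, ?_⟩
  rw [← hB]
  have e : X ^ b - (C lam + (X ^ b %ₘ chi c - C lam)) = X ^ b - X ^ b %ₘ chi c := by ring
  rw [e]
  exact hdvd

/-- the binomial formula for an odd prime exponent -/
theorem pow_prime {R : Type*} [CommRing R] {q : ℕ} (hq : q.Prime) (hq3 : 3 ≤ q) (x y : R) :
    ∃ K : R, (y + x) ^ q = x ^ q + q * x ^ (q - 1) * y + q * y ^ 2 * K + y ^ q := by
  obtain ⟨k, rfl⟩ := Nat.exists_eq_add_of_le' hq3
  have h1 : (((k + 3 : ℕ) : R)) * y ^ 2 ∣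
      ∑ m ∈ range (k + 1), y ^ (m + 1 + 1) * x ^ (k + 3 - (m + 1 + 1)) *
        ((k + 3).choose (m + 1 + 1) : R) := by
    refine Finset.dvd_sum fun m hm => ?_
    rw [Finset.mem_range] at hm
    have h2 : (k + 3) ∣ (k + 3).choose (m + 1 + 1) :=
      hq.dvd_choose_self (by omega) (by omega)
    obtain ⟨w, hw⟩ := h2
    rw [hw]
    refine ⟨y ^ m * x ^ (k + 3 - (m + 1 + 1)) * (w : R), ?_⟩
    push_cast
    ring
  obtain ⟨K, hK⟩ := h1
  refine ⟨K, ?_⟩
  rw [add_pow, Finset.sum_range_succ', Finset.sum_range_succ', Finset.sum_range_succ, hK]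
  have e1 : k + 3 - (k + 1 + 1 + 1) = 0 := by omega
  have e2 : k + 3 - (0 + 1) = k + 2 := by omega
  have e4 : k + 3 - 0 = k + 3 := by omega
  rw [e1, e2, e4]
  simp only [Nat.choose_self, zero_add, Nat.choose_one_right, Nat.choose_zero_right, pow_zero,
    pow_one]
  push_cast
  ring

/-- the shape `lam + q ^ w (kap B + q G)` -/
def Shp {R : Type*} [CommRing R] (q w : ℕ) (B t : R) : Prop :=
  ∃ (lam kap : ℤ) (G : R), t = (lam : R) + (q : R) ^ w * ((kap : R) * B + (q : R) * G) ∧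
    ¬ (q : ℤ) ∣ lam ∧ ¬ (q : ℤ) ∣ kap

theorem shp_cop {R : Type*} [CommRing R] {q w : ℕ} (hq : q.Prime) (hw : 1 ≤ w) {B t : R}
    (h : Shp q w B t) {j : ℕ} (hj : ¬ q ∣ j) : Shp q w B (t ^ j) := by
  have hqi : Prime (q : ℤ) := Nat.prime_iff_prime_int.1 hq
  obtain ⟨lam, kap, G, ht, hl, hk⟩ := h
  obtain ⟨w', rfl⟩ := Nat.exists_eq_add_of_le' hw
  obtain ⟨K, hK⟩ := powAddExpansion (lam : R)
    ((q : R) ^ (w' + 1) * ((kap : R) * B + (q : R) * G)) j
  refine ⟨lam ^ j, j * lam ^ (j - 1) * kap,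
    j * (lam : R) ^ (j - 1) * G + (q : R) ^ w' * ((kap : R) * B + (q : R) * G) ^ 2 * K,
    ?_, ?_, ?_⟩
  · rw [ht, hK]
    push_cast
    ring
  · intro h
    exact hl (hqi.dvd_of_dvd_pow h)
  · intro h
    rcases hqi.dvd_or_dvd h with h | h
    · rcases hqi.dvd_or_dvd h with h | h
      · exact hj (by exact_mod_cast h)
      · exact hl (hqi.dvd_of_dvd_pow h)
    · exact hk h

theorem shp_q {R : Type*} [CommRing R] {q w : ℕ} (hq : q.Prime) (hq3 : 3 ≤ q) (hw : 1 ≤ w)
    {B t : R} (h : Shp q w B t) : Shp q (w + 1) B (t ^ q) := by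
  have hqi : Prime (q : ℤ) := Nat.prime_iff_prime_int.1 hq
  obtain ⟨lam, kap, G, ht, hl, hk⟩ := h
  obtain ⟨w', rfl⟩ := Nat.exists_eq_add_of_le' hw
  obtain ⟨K, hK⟩ := pow_prime hq hq3 (lam : R)
    ((q : R) ^ (w' + 1) * ((kap : R) * B + (q : R) * G))
  obtain ⟨k, hqk⟩ := Nat.exists_eq_add_of_le' hq3
  refine ⟨lam ^ q, lam ^ (q - 1) * kap,
    (lam : R) ^ (q - 1) * G + (q : R) ^ w' * ((kap : R) * B + (q : R) * G) ^ 2 * K +
      (q : R) ^ (2 * w') * ((kap : R) * B + (q : R) * G) ^ 3 *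
        ((q : R) ^ (w' + 1) * ((kap : R) * B + (q : R) * G)) ^ k, ?_, ?_, ?_⟩
  · have e : ∀ z : R, z ^ q = z ^ k * z ^ 3 := fun z => by rw [← pow_add, ← hqk]
    rw [ht, add_comm (lam : R), hK, e ((q : R) ^ (w' + 1) * ((kap : R) * B + (q : R) * G))]
    push_cast
    ring
  · intro h
    exact hl (hqi.dvd_of_dvd_pow h)
  · intro h
    rcases hqi.dvd_or_dvd h with h | h
    · exact hl (hqi.dvd_of_dvd_pow h)
    · exact hk h

theorem shp_qe {R : Type*} [CommRing R] {q w : ℕ} (hq : q.Prime) (hq3 : 3 ≤ q) (hw : 1 ≤ w)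
    {B t : R} (h : Shp q w B t) (e : ℕ) : Shp q (w + e) B (t ^ q ^ e) := by
  induction e with
  | zero => simpa using h
  | succ e ih =>
    rw [pow_succ, pow_mul, ← add_assoc]
    exact shp_q hq hq3 (by omega) ih

theorem shp_all {R : Type*} [CommRing R] {q w : ℕ} (hq : q.Prime) (hq3 : 3 ≤ q) (hw : 1 ≤ w)
    {B t : R} (h : Shp q w B t) {j : ℕ} (hj : j ≠ 0) : ∃ e, Shp q (w + e) B (t ^ j) := by
  obtain ⟨e, j', hj', rfl⟩ := Nat.exists_eq_pow_mul_and_not_dvd hj q hq.ne_one
  refine ⟨e, ?_⟩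
  rw [mul_comm, pow_mul]
  exact shp_qe hq hq3 hw (shp_cop hq hw h hj') e

theorem sound : S_SOUND := by
  intro d c a q b v lam hd hC n hn
  have hqi : Prime (q : ℤ) := Nat.prime_iff_prime_int.1 hC.pr
  obtain ⟨B, hB⟩ := exists_B hd c hC.per
  set t : ℤ[X] := C lam + C ((q : ℤ) ^ v) * B with ht
  have hub : seq c a b = (q : ℤ) ^ v * phi (seq c a) B := by
    rw [← phi_X_pow (seq c a) b, phi_congr c a hB, ht, phi_add, phi_C, hC.zero, phi_C_mul]
    ring
  have hphi : ¬ (q : ℤ) ∣ phi (seq c a) B := by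
    intro h
    apply hC.top
    rw [hub, pow_succ]
    exact mul_dvd_mul_left _ h
  have hb : 0 < b := hC.b1
  have hn' := Nat.mod_add_div n b
  by_cases hr : n % b = 0
  · have hj : n / b ≠ 0 := by
      intro h
      rw [hr, h] at hn'
      omega
    have hsh : Shp q v B t := by
      refine ⟨lam, 1, 0, ?_, hC.unit, ?_⟩
      · rw [ht]
        simp
      · intro h
        exact hqi.not_isUnit (isUnit_of_dvd_one h)
    obtain ⟨e, lam', kap, G, h1, -, h3⟩ := shp_all hC.pr hC.odd hC.v1 hsh hj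
    have h4 : chi c ∣ X ^ n - t ^ (n / b) := by
      have h5 : n = b * (n / b) := by
        rw [hr, zero_add] at hn'
        exact hn'.symm
      have h6 : (X ^ n : ℤ[X]) = (X ^ b) ^ (n / b) := by
        rw [← pow_mul, ← h5]
      rw [h6]
      exact hB.trans (sub_dvd_pow_sub_pow _ _ _)
    have h7 : t ^ (n / b) = C lam' + C ((q : ℤ) ^ (v + e)) * (C kap * B + C (q : ℤ) * G) := by
      rw [h1]
      simp
    have h8 : seq c a n =
        (q : ℤ) ^ (v + e) * (kap * phi (seq c a) B + q * phi (seq c a) G) := by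
      rw [← phi_X_pow (seq c a) n, phi_congr c a h4, h7, phi_add, phi_C, hC.zero, phi_C_mul,
        phi_add, phi_C_mul, phi_C_mul]
      ring
    rw [h8]
    refine mul_ne_zero (pow_ne_zero _ hqi.ne_zero) fun h9 => ?_
    have h10 : (q : ℤ) ∣ kap * phi (seq c a) B := by
      refine ⟨-phi (seq c a) G, ?_⟩
      linarith
    rcases hqi.dvd_or_dvd h10 with h | h
    · exact h3 h
    · exact hphi h
  · have hper : ∀ m : ℕ, (q : ℤ) ∣ seq c a (m + b) - lam * seq c a m := by
      intro m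
      have h4 : chi c ∣ X ^ (m + b) - X ^ m * t := by
        rw [pow_add, ← mul_sub]
        exact hB.mul_left _
      have h5 : X ^ m * t = C lam * X ^ m + C ((q : ℤ) ^ v) * (X ^ m * B) := by
        rw [ht]; ring
      rw [← phi_X_pow (seq c a) (m + b), phi_congr c a h4, h5, phi_add, phi_C_mul, phi_C_mul,
        phi_X_pow, add_sub_cancel_left]
      exact (dvd_pow_self _ (by have := hC.v1; omega)).mul_right _
    have hj : ∀ j : ℕ, (q : ℤ) ∣ seq c a (n % b + b * j) - lam ^ j * seq c a (n % b) := by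
      intro j
      induction j with
      | zero => simp
      | succ j ih =>
        have h1 := hper (n % b + b * j)
        have e : n % b + b * (j + 1) = n % b + b * j + b := by ring
        rw [e]
        have e2 : seq c a (n % b + b * j + b) - lam ^ (j + 1) * seq c a (n % b) =
            (seq c a (n % b + b * j + b) - lam * seq c a (n % b + b * j)) +
              lam * (seq c a (n % b + b * j) - lam ^ j * seq c a (n % b)) := by ring
        rw [e2]
        exact dvd_add h1 (ih.mul_left _)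
    intro h0
    have h1 := hj (n / b)
    rw [hn', h0, zero_sub, dvd_neg] at h1
    rcases hqi.dvd_or_dvd h1 with h | h
    · exact hC.unit (hqi.dvd_of_dvd_pow h)
    · exact hC.cls (n % b) (Nat.pos_of_ne_zero hr) (Nat.mod_lt n hb) h

end Pool.Agent.W403.SK
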